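import Pool.Agent.Helper53.UW.Ask

/-!
# Packet UW-SUB (MP_c578c8_lc, project UR3 of helper53): substitution of oracles
-/

set_option autoImplicit false

namespace Pool.Agent.Helper13.UW

open Pool.Agent.Helper65.LinSpace
open Pool.Agent.Helper31.OL
open Pool.Agent.Helper53.UW

theorem gSUB : GoalSUB := by
  intro κ κ' α γ _ _ _ _ acc acc' hacc f hf
  obtain ⟨G, hG⟩ := hacc
  obtain ⟨F, hF⟩ := hf
  rw [comp_iff] at hG hF
  obtain ⟨k1, hk1⟩ := LS.growth F.lq
  obtain ⟨k2, hk2⟩ := LS.growth1 G.lC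
  have lI := F.lI
  have ld := F.ld
  have lq := F.lq
  have lh := F.lh
  have lo := F.lo
  have lC := F.lC
  have mI := G.lI
  have md := G.ld
  have mq := G.lq
  have mh := G.lh
  have mo := G.lo
  have mC := G.lC
  refine ⟨{ B := ℕ × F.B × G.B
            I := fun a => (0, F.I a, def0 G.B)
            d := fun p => if p.1.1 = 0 then (1, p.1.2.1, G.I (F.q p.1.2.1))
              else (if G.h p.1.2.2 = 0 then (1, p.1.2.1, G.d (p.1.2.2, p.2))
                else (0, F.d (p.1.2.1, lt01 0 (G.o p.1.2.2)), def0 G.B))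
            q := fun s => G.q s.2.2
            h := fun s => ifz s.1 (F.h s.2.1) 0
            o := fun s => F.o s.2.1
            C := fun a => 1 + F.C a + ((F.C a + 2) ^ k1 + 2) ^ k2
            lI := by fun_prop
            ld := LS.ite (by fun_prop) (by fun_prop)
              (LS.ite (by fun_prop) (by fun_prop) (by fun_prop))
            lq := by fun_prop
            lh := by fun_prop
            lo := by fun_prop
            lC := LS.add (LS.add (LS.const 1) lC) (LS.pow_const (LS.add (LS.pow_const (LS.add lC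
              (LS.const 2)) k1) (LS.const 2)) k2) }, ?_⟩
  rw [comp_iff]
  intro a
  obtain ⟨s', h1, h2, h3⟩ := hF a
  refine ⟨(0, s', def0 G.B), ?_, h2, h3⟩
  clear h2 h3
  show Rn _ _ _ (0, F.I a, def0 G.B) (0, s', def0 G.B)
  have hm1 : 1 ≤ 1 + F.C a + ((F.C a + 2) ^ k1 + 2) ^ k2 := by omega
  have hmF : F.C a ≤ 1 + F.C a + ((F.C a + 2) ^ k1 + 2) ^ k2 := by omega
  have hmG : ((F.C a + 2) ^ k1 + 2) ^ k2 ≤ 1 + F.C a + ((F.C a + 2) ^ k1 + 2) ^ k2 := by omega
  generalize F.I a = s0 at h1 ⊢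
  induction h1 with
  | refl s hs =>
    exact Rn.refl _ (enc_pair _ _ (enc_nat _ _ (Nat.zero_le _)) (enc_pair _ _
      (fun j => (hs j).trans hmF) fun j => (enc_def0 j).trans_le (Nat.zero_le _)))
  | step s s' hh hs _ ih =>
    obtain ⟨t', g1, g2, g3⟩ := hG (F.q s)
    have hCg : G.C (F.q s) ≤ 1 + F.C a + ((F.C a + 2) ^ k1 + 2) ^ k2 :=
      (hk2 _ _ (hk1 s _ hs)).trans hmG
    have hb1 : ∀ t : G.B, (∀ j, Ctx.enc t j ≤ G.C (F.q s)) →
        ∀ j, Ctx.enc ((1, s, t) : ℕ × F.B × G.B) j ≤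
          1 + F.C a + ((F.C a + 2) ^ k1 + 2) ^ k2 := fun t ht =>
      enc_pair _ _ (enc_nat _ _ hm1) (enc_pair _ _
        (fun j => (hs j).trans hmF) fun j => (ht j).trans hCg)
    refine Rn.step _ _ hh ?_ ?_
    · exact enc_pair _ _ (enc_nat _ _ (Nat.zero_le _)) (enc_pair _ _
        (fun j => (hs j).trans hmF) fun j => (enc_def0 j).trans_le (Nat.zero_le _))
    · show Rn _ _ _ (1, s, G.I (F.q s)) _
      refine Rn.trans (Rn.map (fun t => (1, s, t)) ?_ hb1 g1) (Rn.step _ _ rfl (hb1 _ g1.bound) ?_)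
      · intro t ht
        refine ⟨rfl, ?_⟩
        unfold stp
        simp only [one_ne_zero, if_false, ht, if_true]
      · have e1 : stp acc (fun p : (ℕ × F.B × G.B) × ℕ =>
              if p.1.1 = 0 then (1, p.1.2.1, G.I (F.q p.1.2.1))
              else (if G.h p.1.2.2 = 0 then (1, p.1.2.1, G.d (p.1.2.2, p.2))
                else (0, F.d (p.1.2.1, lt01 0 (G.o p.1.2.2)), def0 G.B)))
              (fun s : ℕ × F.B × G.B => G.q s.2.2) (1, s, t') =
            (0, stp acc' F.d F.q s, def0 G.B) := by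
          unfold stp bit
          simp only [one_ne_zero, if_false, g2, g3]
        rw [e1]
        exact ih

end Pool.Agent.Helper13.UW
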