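import Mathlib
import Pool.Agent.Helper18.UW.GoalsR
import Pool.Agent.Helper43.Hw.Goals

/-!
# Project UW: packet V2 (loads and starts of the virtual play)
-/

set_option autoImplicit false

namespace Pool.Agent.Helper13.UW

open Finset
open Pool.Agent.Helper43.Hw (T na va lz Play aa ac sc oo GoalH1 GoalH2)
open Pool.Agent.Helper43.Gm (nn)
open Pool.Agent.Helper18.UW

theorem va_lt {μ R : ℕ} {κ x : ℕ → ℕ} {c z : ℕ} (h : κ z < c) : va μ R κ x c z = na μ R z := by
  unfold va
  rw [if_pos h]

theorem va_eq {μ R : ℕ} {κ x : ℕ → ℕ} {c z : ℕ} (h : κ z = c) : va μ R κ x c z = x z := by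
  unfold va nn
  rw [if_neg (by omega), if_neg (by omega), if_pos h]

theorem na_add {μ m R z : ℕ} (h : m ≤ μ) :
    na μ R z = na m R z + min (μ - m) (z + 1 + μ - R) := by
  unfold na
  omega

theorem goalV2 (hV1 : GoalV1) (hH1 : GoalH1) (hH2 : GoalH2) : GoalV2 := by
  intro m μ δ R N N1 g τ κ x hv
  obtain ⟨hP, hpa, hc⟩ := hV1 m μ δ R N N1 g τ κ x hv
  have hμ := hv.μ1
  have hτ := hv.t1
  have htJ := hv.tJ
  have hgN := hv.gN
  have hN1 := hv.N1g
  set κ' := vk m μ R N1 g κ with hκ'
  set x' := vx m μ R N1 g κ x with hx'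
  have hR : μ + 2 ≤ R := by omega
  obtain ⟨g1, -⟩ := hH1 μ R (N - N1) κ' x' hμ hR hP
  obtain ⟨-, -, -, g4⟩ := hH2 μ R (N - N1) κ' x' hμ hR hP
  have hIco : ∀ (a b : ℕ) (f : ℕ → ℕ), ∑ c ∈ Ico (N1 + a) (N1 + b), f c =
      ∑ c ∈ Ico a b, f (N1 + c) := by
    intro a b f
    have h := sum_Ico_add' f a b N1
    rw [add_comm N1 a, add_comm N1 b, ← h]
    refine sum_congr rfl fun c _ => ?_
    rw [add_comm]
  -- loads
  have h1 : ∀ z, τ ≤ z → z < R → lz μ R (N - N1) κ' x' z = uz m R N κ x z + vd m μ R g N z := by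
    intro z hz hzR
    obtain ⟨hk, hx⟩ := hpa z hz hzR
    obtain ⟨hk2, hx2⟩ := hv.pa z hz hzR
    have e1 : lz μ R (N - N1) κ' x' z =
        ∑ c ∈ Ico N1 g, va (m c) R κ x c z + ∑ c ∈ Ico g N, na μ R z := by
      unfold lz
      rw [range_eq_Ico, ← sum_Ico_consecutive _ (Nat.zero_le (g - N1))
        (show g - N1 ≤ N - N1 by omega)]
      congr 1
      · have h3 := hIco 0 (g - N1) (fun c => va (m c) R κ x c z)
        rw [show N1 + 0 = N1 by omega, show N1 + (g - N1) = g by omega] at h3
        rw [h3]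
        refine sum_congr rfl fun c hc' => ?_
        rw [mem_Ico] at hc'
        have h4 := (hc (N1 + c) (by omega) (by omega)).2.2 z hz hzR
        rw [show N1 + c - N1 = c by omega] at h4
        exact h4
      · have h3 := hIco (g - N1) (N - N1) (fun _ => na μ R z)
        rw [show N1 + (g - N1) = g by omega, show N1 + (N - N1) = N by omega] at h3
        rw [h3]
        refine sum_congr rfl fun c hc' => ?_
        rw [mem_Ico] at hc'
        rcases Nat.eq_or_lt_of_le hc'.1 with h | h
        · rw [va_eq (by rw [hk, h]), hx]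
        · exact va_lt (by rw [hk]; exact h)
    have e2 : uz m R N κ x z =
        ∑ c ∈ Ico N1 g, va (m c) R κ x c z + ∑ c ∈ Ico g N, na (m c) R z := by
      unfold uz
      rw [range_eq_Ico, ← sum_Ico_consecutive _ (Nat.zero_le N1) (show N1 ≤ N by omega),
        ← sum_Ico_consecutive _ hN1 hgN.le]
      have h3 : ∑ c ∈ Ico 0 N1, va (m c) R κ x c z = 0 := by
        refine sum_eq_zero fun c hc' => ?_
        rw [mem_Ico] at hc'
        exact hv.dead c hc'.2 z hz hzR
      rw [h3, zero_add]
      congr 1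
      refine sum_congr rfl fun c hc' => ?_
      rw [mem_Ico] at hc'
      rcases Nat.eq_or_lt_of_le hc'.1 with h | h
      · rw [va_eq (by rw [hk2, h]), hx2, h]
      · exact va_lt (by rw [hk2]; exact h)
    rw [e1, e2, vd, add_assoc, ← sum_add_distrib]
    congr 1
    refine sum_congr rfl fun c hc' => ?_
    rw [mem_Ico] at hc'
    exact na_add (hv.main c (by omega) hc'.2).2
  have hτR : τ < R := by omega
  obtain ⟨hkτ, hxτ⟩ := hpa τ le_rfl hτR
  obtain ⟨hkτ2, hxτ2⟩ := hv.pa τ le_rfl hτR
  have hsh : ∀ (P : ℕ → Prop) (Q : ℕ → Prop) [DecidablePred P] [DecidablePred Q],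
      (∀ c, N1 ≤ c → c < g → (P (c - N1) ↔ Q c)) →
      ((range (g - N1)).filter P).card = ((Ico N1 g).filter Q).card := by
    intro P Q _ _ h
    refine card_bij (fun c _ => N1 + c) ?_ ?_ ?_
    · intro c hc'
      rw [mem_filter, mem_range] at hc'
      rw [mem_filter, mem_Ico]
      refine ⟨by omega, ?_⟩
      have h3 := h (N1 + c) (by omega) (by omega)
      rw [show N1 + c - N1 = c by omega] at h3
      exact h3.1 hc'.2
    · intro a _ b _ hab
      omega
    · intro c hc'
      rw [mem_filter, mem_Ico] at hc'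
      refine ⟨c - N1, ?_, by omega⟩
      rw [mem_filter, mem_range]
      exact ⟨by omega, (h c hc'.1.1 hc'.1.2).2 hc'.2⟩
  refine ⟨h1, ?_, ?_, ?_⟩
  · -- old points alive
    unfold oo uo
    rw [hkτ, hkτ2]
    rw [hsh (fun c => 0 < va μ R κ' x' c τ) (fun c => 0 < va (m c) R κ x c τ)]
    · congr 1
      ext c
      rw [mem_filter, mem_filter, mem_Ico, mem_range]
      constructor
      · rintro ⟨h2, h3⟩
        exact ⟨h2.2, h3⟩
      · rintro ⟨h2, h3⟩
        refine ⟨⟨?_, h2⟩, h3⟩
        by_contra h4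
        rw [hv.dead c (by omega) τ le_rfl hτR] at h3
        exact lt_irrefl _ h3
    · intro c h2 h3
      rw [(hc c h2 h3).2.2 τ le_rfl hτR]
  · -- starts
    intro z hz
    have hzR : z < R := by omega
    have ha : aa κ' x' τ = g - N1 := by
      unfold aa
      rw [hkτ, hxτ, if_neg]
      · rfl
      · unfold na
        omega
    have h2 : τ < ac R κ' x' (g - N1) := ((g1 (g - N1) τ hτR).2).1 ha.le
    have h3 : aa κ' x' z ≤ g - N1 := ((g1 (g - N1) z hzR).2).2 (by omega)
    have h4 : aa κ' x' z = ((range (g - N1)).filter (fun c => c < aa κ' x' z)).card := by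
      have h5 : (range (g - N1)).filter (fun c => c < aa κ' x' z) = range (aa κ' x' z) := by
        ext c
        rw [mem_filter, mem_range, mem_range]
        omega
      rw [h5, card_range]
    rw [h4]
    refine hsh _ _ fun c hc1 hc2 => ?_
    have h5 := (g1 (c - N1) z hzR).2
    have h6 := (hc c hc1 hc2).2.1
    constructor
    · intro h7
      by_contra h8
      have h9 := h5.2 (by omega)
      omega
    · intro h7
      by_contra h8
      have h9 := h5.1 (by omega)
      omega
  · rw [← g4, range_eq_Ico, range_eq_Ico,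
      ← sum_Ico_consecutive (fun z => lz μ R (N - N1) κ' x' z) (Nat.zero_le τ) hτR.le]
    congr 1
    refine sum_congr rfl fun z hz => ?_
    rw [mem_Ico] at hz
    exact (h1 z hz.1 hz.2).symm

end Pool.Agent.Helper13.UW
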